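import Pool.Agent.MP_c69980_ag.H43.Spec1

/-!
The largest stable ideal inside a prime ideal is prime; independence modulo primes.
-/

set_option autoImplicit false

namespace Pool.Agent.MP_c69980_ag.H43

open MvPolynomial H60

section Stable

variable {A : Type} [CommRing A]

lemma kei_pow {D : A →+ A} (h : Leib D) (a : A) (m : ℕ) :
    D (a ^ (m + 1)) = ((m : A) + 1) * a ^ m * D a := by
  induction m with
  | zero => simp
  | succ m ih =>
    rw [pow_succ, h, ih]
    push_cast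
    ring

lemma kei_rad {D : A →+ A} (h : Leib D) (hu : ∀ n : ℕ, IsUnit ((n : A) + 1)) {I : Ideal A}
    (hI : ∀ x ∈ I, D x ∈ I) (a : A) :
    ∀ m k : ℕ, a ^ m * D a ^ k ∈ I → ∃ j : ℕ, D a ^ j ∈ I := by
  intro m
  induction m with
  | zero => exact fun k hk => ⟨k, by simpa using hk⟩
  | succ m ih =>
    intro k hk
    refine ih (2 * k + 1) ?_
    have h1 := hI _ hk
    rw [h, kei_pow h] at h1
    have h2 := I.sub_mem (I.mul_mem_right (D a ^ k) h1) (I.mul_mem_right (D (D a ^ k)) hk)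
    have h3 : ((m : A) + 1) * (a ^ m * D a ^ (2 * k + 1)) ∈ I := by
      have e : ((m : A) + 1) * (a ^ m * D a ^ (2 * k + 1)) =
          (((m : A) + 1) * a ^ m * D a * D a ^ k + a ^ (m + 1) * D (D a ^ k)) * D a ^ k -
            a ^ (m + 1) * D a ^ k * D (D a ^ k) := by ring
      rw [e]
      exact h2
    exact (Ideal.unit_mul_mem_iff_mem I (hu m)).1 h3

lemma kei_rad_stable {D : A →+ A} (h : Leib D) (hu : ∀ n : ℕ, IsUnit ((n : A) + 1)) {I : Ideal A}
    (hI : ∀ x ∈ I, D x ∈ I) : ∀ x ∈ I.radical, D x ∈ I.radical := by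
  rintro x ⟨m, hm⟩
  exact kei_rad h hu hI x m 0 (by simpa using hm)

/-- The ideal of the elements which multiply `a` into `I`. -/
def keiCol (I : Ideal A) (a : A) : Ideal A where
  carrier := {b | a * b ∈ I}
  add_mem' := by
    intro x y hx hy
    have := I.add_mem hx hy
    rwa [← mul_add] at this
  zero_mem' := by simp
  smul_mem' := by
    intro c x hx
    have := I.mul_mem_left c hx
    show a * (c * x) ∈ I
    rwa [mul_left_comm]

lemma kei_col_stable {D : A →+ A} (h : Leib D) {I : Ideal A} (hr : I.radical ≤ I)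
    (hI : ∀ x ∈ I, D x ∈ I) (a : A) : ∀ b ∈ keiCol I a, D b ∈ keiCol I a := by
  intro b hb
  have hb' : a * b ∈ I := hb
  have h1 := hI _ hb'
  rw [h] at h1
  have h2 := I.sub_mem (I.mul_mem_left (a * D b) h1) (I.mul_mem_left (D a * D b) hb')
  refine hr ⟨2, ?_⟩
  have e : (a * D b) ^ 2 = a * D b * (D a * b + a * D b) - D a * D b * (a * b) := by ring
  rw [e]
  exact h2

lemma kei_one (ι : Type) (d : ι → A →+ A) (hd : ∀ i, Leib (d i))
    (hu : ∀ n : ℕ, IsUnit ((n : A) + 1)) (p : Ideal A) (hp : p.IsPrime) :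
    ∃ q : Ideal A, q.IsPrime ∧ q ≤ p ∧ (∀ i, ∀ x ∈ q, d i x ∈ q) ∧
      ∀ I : Ideal A, (∀ i, ∀ x ∈ I, d i x ∈ I) → I ≤ p → I ≤ q := by
  let S : Set (Ideal A) := {I | (∀ i, ∀ x ∈ I, d i x ∈ I) ∧ I ≤ p}
  have hmax : ∀ I : Ideal A, (∀ i, ∀ x ∈ I, d i x ∈ I) → I ≤ p → I ≤ sSup S :=
    fun I h1 h2 => le_sSup ⟨h1, h2⟩
  have hle : sSup S ≤ p := sSup_le fun I hI => hI.2
  have hst : ∀ i, ∀ x ∈ sSup S, d i x ∈ sSup S := by
    intro i x hx
    have hx' : x ∈ ⨆ I : S, (I : Ideal A) := by rwa [← sSup_eq_iSup']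
    refine Submodule.iSup_induction (fun I : S => (I : Ideal A))
      (motive := fun x => d i x ∈ sSup S) hx' ?_ ?_ ?_
    · intro I y hy
      exact hmax I I.2.1 I.2.2 (I.2.1 i y hy)
    · simp
    · intro y z hy hz
      rw [map_add]
      exact add_mem hy hz
  have hrad : (sSup S).radical ≤ sSup S :=
    hmax _ (fun i => kei_rad_stable (hd i) hu (hst i)) (hp.radical_le_iff.2 hle)
  have hcol : ∀ a b, a * b ∈ sSup S → b ∉ sSup S → ∃ c, a * c ∈ sSup S ∧ c ∉ p := by
    intro a b hab hb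
    by_contra hc
    refine hb (hmax (keiCol (sSup S) a) (fun i => kei_col_stable (hd i) hrad (hst i) a) ?_ hab)
    intro c hc'
    by_contra hcp
    exact hc ⟨c, hc', hcp⟩
  refine ⟨sSup S, ⟨fun ht => hp.ne_top (top_le_iff.1 (ht ▸ hle)), ?_⟩, hle, hst, hmax⟩
  intro a b hab
  by_contra hn
  rw [not_or] at hn
  obtain ⟨b1, h1, hb1⟩ := hcol a b hab hn.2
  obtain ⟨a1, h2, ha1⟩ := hcol b1 a (mul_comm a b1 ▸ h1) hn.1
  exact (hp.mem_or_mem (hle h2)).elim hb1 ha1

end Stable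

lemma kei_poly {R A : Type} [CommRing R] [CommRing A] (φ : R →+* A) {p q : Ideal A}
    (hp : p.IsPrime) (hpq : p ≤ q) (hφ : ∀ r, φ r ∈ q → r = 0) {a : A} (ha : a ∈ q) (hap : a ∉ p)
    (P : Polynomial R) : P.eval₂ φ a ∈ p → P = 0 := by
  refine Polynomial.recOnHorner (M := fun P => P.eval₂ φ a ∈ p → P = 0) P (fun _ => rfl) ?_ ?_
  · intro Q c h0 hc _ h
    obtain ⟨T, rfl⟩ := Polynomial.X_dvd_iff.2 h0
    rw [Polynomial.eval₂_add, Polynomial.eval₂_mul, Polynomial.eval₂_X, Polynomial.eval₂_C] at h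
    have h1 := q.sub_mem (hpq h) (q.mul_mem_right (T.eval₂ φ a) ha)
    rw [add_sub_cancel_left] at h1
    exact absurd (hφ c h1) hc
  · intro Q hQ ih h
    rw [Polynomial.eval₂_mul, Polynomial.eval₂_X] at h
    exact absurd (ih ((hp.mem_or_mem h).resolve_right hap)) hQ

lemma kei_eval {F A : Type} [Field F] [CommRing A] [Algebra F A] {n : ℕ} (y : Fin n → A) (a : A)
    (H : MvPolynomial (Fin (n + 1)) F) :
    aeval (Fin.cons a y : Fin (n + 1) → A) H =
      (finSuccEquiv F n H).eval₂ (aeval y : MvPolynomial (Fin n) F →ₐ[F] A).toRingHom a := by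
  induction H using MvPolynomial.induction_on with
  | C c => simp [finSuccEquiv_apply]
  | add P Q hP hQ => rw [map_add, map_add, Polynomial.eval₂_add, hP, hQ]
  | mul_X P i hP =>
    rw [map_mul, map_mul, Polynomial.eval₂_mul, hP]
    refine congrArg _ ?_
    refine Fin.cases ?_ (fun j => ?_) i
    · simp [finSuccEquiv_X_zero]
    · simp [finSuccEquiv_X_succ]

theorem sKei : SKei := by
  refine ⟨fun A _ ι d hd hu p hp => kei_one ι d hd hu p hp, ?_⟩
  intro F A _ _ _ p q hp hpq n y hy a ha hap H hH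
  rw [kei_eval] at hH
  have h := kei_poly _ hp hpq hy ha hap _ hH
  exact (finSuccEquiv F n).injective (h.trans (map_zero _).symm)

end Pool.Agent.MP_c69980_ag.H43
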