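import Pool.Agent.MP_c69980_ag.H43.Spec6

/-!
Subtraction on a semi-abelian variety over abstract fields.
-/

set_option autoImplicit false

namespace Pool.Agent.MP_c69980_ag.H43

open MvPolynomial H60 Finset

namespace GKsubAux

section Forms
variable {t a M : ℕ} {Θ : Pt t a → Fin M → ℂ} {H : MvPolynomial (Fin M ⊕ Fin M) ℂ} {d e : ℕ}

/-- A bihomogeneous polynomial is a sum of products of forms. -/
lemma dec (h : BiH H d e) : ∃ L R : (Fin M ⊕ Fin M →₀ ℕ) → PR M,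
    (∀ m ∈ H.support, (L m).IsHomogeneous d ∧ (R m).IsHomogeneous e) ∧
    ∀ (A : Type) [CommRing A] [Algebra ℂ A] (y y' : Fin M → A),
      aeval (Sum.elim y y') H = ∑ m ∈ H.support, aeval y (L m) * aeval y' (R m) := by
  refine ⟨fun m => C (coeff m H) * ∏ i, X i ^ m (Sum.inl i), fun m => ∏ i, X i ^ m (Sum.inr i),
    fun m hm => ?_, fun A _ _ y y' => ?_⟩
  · have h1 := h (mem_support_iff.1 hm)
    rw [Finsupp.weight_apply, Finsupp.sum_fintype _ _ (by simp), Fintype.sum_sum_type] at h1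
    have h2 : ∑ i, m (Sum.inl i) = d := by simpa [Prod.fst_sum] using congrArg Prod.fst h1
    have h3 : ∑ i, m (Sum.inr i) = e := by simpa [Prod.snd_sum] using congrArg Prod.snd h1
    exact ⟨h2 ▸ (IsHomogeneous.prod _ _ _ fun i _ => isHomogeneous_X_pow i _).C_mul _,
      h3 ▸ IsHomogeneous.prod _ _ _ fun i _ => isHomogeneous_X_pow i _⟩
  · rw [aeval_def, eval₂_eq']
    refine sum_congr rfl fun m _ => ?_
    simp [Fintype.prod_sum_type, mul_assoc]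

lemma scale (h : BiH H d e) {A : Type} [CommRing A] [Algebra ℂ A] (l l' : A) (y y' : Fin M → A) :
    aeval (Sum.elim (fun i => l * y i) fun i => l' * y' i) H =
      l ^ d * l' ^ e * aeval (Sum.elim y y') H := by
  obtain ⟨L, R, h1, h2⟩ := dec h
  rw [h2, h2, mul_sum]
  refine sum_congr rfl fun m hm => ?_
  rw [aeval_scale (h1 m hm).1, aeval_scale (h1 m hm).2]
  ring

lemma wt {σ : Type} [Fintype σ] {P : MvPolynomial σ ℂ} {l : σ → ℂ} {μ : ℂ}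
    (h : ∀ x : σ → ℂ, eval (fun i => l i * x i) P = μ * eval x P) {m : σ →₀ ℕ}
    (hm : coeff m P ≠ 0) : ∏ i, l i ^ m i = μ := by
  classical
  have h1 : ∑ n ∈ P.support, monomial n ((∏ i, l i ^ n i) * coeff n P) = C μ * P := by
    refine MvPolynomial.funext fun x => ?_
    rw [map_mul, eval_C, ← h, map_sum, eval_eq']
    refine sum_congr rfl fun n _ => ?_
    rw [eval_monomial, Finsupp.prod_fintype _ _ (by simp)]
    simp only [mul_pow, prod_mul_distrib]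
    ring
  have h2 := congrArg (coeff m) h1
  rw [coeff_sum, coeff_C_mul] at h2
  simp only [coeff_monomial, sum_ite_eq', mem_support_iff.2 hm, if_true] at h2
  exact mul_right_cancel₀ hm h2

/-- The scaling identity characterises bihomogeneous polynomials. -/
lemma bih (h : ∀ (l l' : ℂ) (x y : Fin M → ℂ),
    eval (Sum.elim (l • x) (l' • y)) H = l ^ d * l' ^ e * eval (Sum.elim x y) H) : BiH H d e := by
  intro m hm
  have key : ∀ l l' : ℂ, l ^ (∑ i, m (Sum.inl i)) * l' ^ (∑ i, m (Sum.inr i)) = l ^ d * l' ^ e := by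
    intro l l'
    rw [← wt (l := Sum.elim (fun _ => l) fun _ => l') (μ := l ^ d * l' ^ e) (fun x => ?_) hm,
      Fintype.prod_sum_type]
    · simp [prod_pow_eq_pow_sum]
    · have := h l l' (x ∘ Sum.inl) (x ∘ Sum.inr)
      rw [Sum.elim_comp_inl_inr] at this
      rw [← this]
      exact congrArg (fun z => eval z H) (funext fun i => by cases i <;> rfl)
  have h2 : ∑ i, m (Sum.inl i) = d := by
    have := key 2 1
    simp only [one_pow, mul_one] at this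
    exact Nat.pow_right_injective le_rfl (by exact_mod_cast this)
  have h3 : ∑ i, m (Sum.inr i) = e := by
    have := key 1 2
    simp only [one_pow, one_mul] at this
    exact Nat.pow_right_injective le_rfl (by exact_mod_cast this)
  rw [Finsupp.weight_apply, Finsupp.sum_fintype _ _ (by simp), Fintype.sum_sum_type]
  ext
  · simpa [Prod.fst_sum] using h2
  · simpa [Prod.snd_sum] using h3

/-- Equations with coefficients in an algebra. -/
lemma ext_eqs {A σ : Type} [CommRing A] [Algebra ℂ A] {y : Fin M → A} (hy : Eqs Θ y) (s : Finset σ)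
    (u : σ → A) (F : σ → PR M) (hF : ∀ m ∈ s, (F m).IsHomogeneous e)
    (h : ∀ q, ∑ m ∈ s, eval (Θ q) (F m) • u m = 0) : ∑ m ∈ s, u m * aeval y (F m) = 0 := by
  classical
  let b := Module.Basis.ofVectorSpace ℂ A
  have h1 : ∀ i, aeval y (∑ m ∈ s, C (b.repr (u m) i) * F m) = 0 := fun i =>
    hy _ e (IsHomogeneous.sum _ _ _ fun m hm => (hF m hm).C_mul _) fun q => by
      have := congrArg (fun v => b.repr v i) (h q)
      simpa [mul_comm] using this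
  have h2 : ∀ m ∈ s, u m = ∑ i ∈ s.biUnion fun m => (b.repr (u m)).support,
      b.repr (u m) i • b i := fun m hm => by
    conv_lhs => rw [← b.linearCombination_repr (u m)]
    rw [Finsupp.linearCombination_apply]
    exact Finsupp.sum_of_support_subset _
      (subset_biUnion_of_mem (fun m => (b.repr (u m)).support) hm) _ (by simp)
  rw [sum_congr rfl fun m hm => by rw [h2 m hm, sum_mul], sum_comm]
  refine sum_eq_zero fun i _ => ?_
  rw [← mul_zero (b i), ← h1 i, map_sum, mul_sum]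
  refine sum_congr rfl fun m _ => ?_
  rw [map_mul, aeval_C, Algebra.smul_def]
  ring

lemma bi (h : BiH H d e) (h0 : ∀ p q, eval (Sum.elim (Θ p) (Θ q)) H = 0) (A : Type) [CommRing A]
    [Algebra ℂ A] (y y' : Fin M → A) (hy : Eqs Θ y) (hy' : Eqs Θ y') :
    aeval (Sum.elim y y') H = 0 := by
  obtain ⟨L, R, h1, h2⟩ := dec h
  rw [h2]
  refine ext_eqs hy' _ _ _ (fun m hm => (h1 m hm).2) fun q => ?_
  have := hy (∑ m ∈ H.support, C (eval (Θ q) (R m)) * L m) d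
    (IsHomogeneous.sum _ _ _ fun m hm => (h1 m hm).1.C_mul _) fun p => by
      have h3 : eval _ H = ∑ m ∈ H.support, eval (Θ p) (L m) * eval (Θ q) (R m) :=
        h2 ℂ (Θ p) (Θ q)
      rw [← h0 p q, h3, map_sum]
      exact sum_congr rfl fun m _ => by rw [map_mul, eval_C, mul_comm]
  rw [← this, map_sum]
  exact sum_congr rfl fun m _ => by rw [map_mul, aeval_C, Algebra.smul_def]

lemma eqs_sb {S : Fin M → MvPolynomial (Fin M ⊕ Fin M) ℂ} (hS : IsSub Θ S d e) {A : Type}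
    [CommRing A] [Algebra ℂ A] {y y' : Fin M → A} (hy : Eqs Θ y) (hy' : Eqs Θ y') :
    Eqs Θ (sb S y y') := by
  intro F n hF h0
  have h1 : ∀ (B : Type) [CommRing B] [Algebra ℂ B] (x : Fin M ⊕ Fin M → B),
      aeval x (aeval S F) = aeval (fun c => aeval x (S c)) F := fun B _ _ x =>
    congrArg (fun f => f F) (comp_aeval (f := S) (aeval x))
  have h2 : ∀ x : Fin M ⊕ Fin M → ℂ, eval x (aeval S F) = aeval (fun c => eval x (S c)) F := h1 ℂ
  refine (h1 A _).symm.trans (bi (d := d * n) (e := e * n) (bih fun l l' x x' => ?_)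
    (fun p q => ?_) A y y' hy hy')
  · have h3 : ∀ c, eval (Sum.elim (l • x) (l' • x')) (S c) =
        l ^ d * l' ^ e * eval (Sum.elim x x') (S c) := fun c => scale (hS.1 c) l l' x x'
    rw [h2, h2, funext h3, aeval_scale hF, mul_pow, pow_mul, pow_mul]
  · obtain ⟨l, hl⟩ := hS.2 p q
    have h3 : aeval (Θ (p - q)) F = 0 := h0 _
    rw [h2, funext hl, aeval_scale hF, h3, mul_zero]

end Forms

section Tr
variable {Ω : Type} [Field Ω] {K : Subfield Ω} {φ : K →+* ℂ} {u u' : Ω} {c c' : ℂ}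

/-- `c` is the image of `u`. -/
def Tr (φ : K →+* ℂ) (u : Ω) (c : ℂ) : Prop := ∃ h, φ ⟨u, h⟩ = c

lemma Tr.add (h : Tr φ u c) (h' : Tr φ u' c') : Tr φ (u + u') (c + c') :=
  let ⟨a, b⟩ := h; let ⟨a', b'⟩ := h'; ⟨add_mem a a', b ▸ b' ▸ φ.map_add ⟨u, a⟩ ⟨u', a'⟩⟩

lemma Tr.sub (h : Tr φ u c) (h' : Tr φ u' c') : Tr φ (u - u') (c - c') :=
  let ⟨a, b⟩ := h; let ⟨a', b'⟩ := h'; ⟨sub_mem a a', b ▸ b' ▸ φ.map_sub ⟨u, a⟩ ⟨u', a'⟩⟩

lemma Tr.mul (h : Tr φ u c) (h' : Tr φ u' c') : Tr φ (u * u') (c * c') :=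
  let ⟨a, b⟩ := h; let ⟨a', b'⟩ := h'; ⟨mul_mem a a', b ▸ b' ▸ φ.map_mul ⟨u, a⟩ ⟨u', a'⟩⟩

lemma Tr.div (h : Tr φ u c) (h' : Tr φ u' c') : Tr φ (u / u') (c / c') :=
  let ⟨a, b⟩ := h; let ⟨a', b'⟩ := h'; ⟨div_mem a a', b ▸ b' ▸ map_div₀ φ ⟨u, a⟩ ⟨u', a'⟩⟩

lemma tr_zero : Tr φ 0 0 := ⟨zero_mem K, φ.map_zero⟩

lemma Tr.eq_iff (h : Tr φ u c) (h' : Tr φ u' c') : u = u' ↔ c = c' := by
  obtain ⟨a, rfl⟩ := h
  obtain ⟨a', rfl⟩ := h'
  rw [φ.injective.eq_iff, Subtype.mk.injEq]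

lemma Tr.sum {ι : Type} (s : Finset ι) {f : ι → Ω} {g : ι → ℂ} (h : ∀ i, Tr φ (f i) (g i)) :
    Tr φ (∑ i ∈ s, f i) (∑ i ∈ s, g i) := by
  classical
  induction s using Finset.induction_on with
  | empty => simpa using tr_zero
  | insert i s hi ih =>
    rw [sum_insert hi, sum_insert hi]
    exact (h i).add ih

lemma Tr.ne_iff (h : Tr φ (u / u) (c / c)) : u ≠ 0 ↔ c ≠ 0 := by
  have := h.eq_iff tr_zero
  rw [div_eq_zero_iff, div_eq_zero_iff, or_self, or_self] at this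
  exact this.not

variable [Algebra ℂ Ω] {k : Subfield ℂ}

lemma tr_eval (hk : ∀ c ∈ k, Tr φ (algebraMap ℂ Ω c) c) {ι : Type} {P : MvPolynomial ι ℂ}
    (hP : Cf k P) {x : ι → Ω} {x' : ι → ℂ} (hx : ∀ i, Tr φ (x i) (x' i)) :
    Tr φ (aeval x P) (aeval x' P) := by
  obtain ⟨P', rfl⟩ := cf_iff.1 hP
  clear hP
  induction P' using MvPolynomial.induction_on with
  | C c => simpa using hk _ c.2
  | add p q hp hq => simpa using hp.add hq
  | mul_X p i hp => simpa using hp.mul (hx i)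

variable {t a M : ℕ} {w : Fin M → Option (Fin t)} {Θ : Pt t a → Fin M → ℂ} {PP : PT M t a}

/-- Velocities are tangent vectors. -/
lemma vel_iff (g : GD w Θ PP k) (hk : ∀ c ∈ k, Tr φ (algebraMap ℂ Ω c) c) {δ : Ω → Ω} {D : Der}
    (hD : ∀ u c, Tr φ u c → Tr φ (δ u) (D c)) {y : Fin M → Ω} {p v : Pt t a}
    (hy : ∀ c b, Tr φ (y c / y b) (Θ p c / Θ p b)) {γ : Fin (t + a) → Ω}
    (hv : ∀ i, Tr φ (γ i) (v i)) : Vel w PP δ y γ ↔ Tan Θ D p v := by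
  have h1 : ∀ β, Ch w β y ↔ Ch w β (Θ p) := fun β =>
    forall_congr' fun o => and_congr_right fun _ => (hy _ _).ne_iff
  have h2 : ∀ β x, δ (co β y x) = vf (PP β) γ (co β y) x ↔
      D (co β (Θ p) x) = vf (PP β) v (co β (Θ p)) x := fun β x =>
    (hD _ _ (hy _ _)).eq_iff (Tr.sum _ fun i =>
      (hv i).mul (tr_eval hk (g.cf β i x) fun _ => hy _ _))
  refine ⟨fun h => ?_, fun h β hβ x => (h2 β x).2 ((g.tan_iff ((h1 β).1 hβ)).1 h x)⟩
  obtain ⟨β, hβ⟩ := g.ch p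
  exact (g.tan_iff hβ).2 fun x => (h2 β x).1 (h β ((h1 β).2 hβ) x)

/-- Values of formulas of one bidegree at two points and at their images. -/
lemma tr_sb (hk : ∀ c ∈ k, Tr φ (algebraMap ℂ Ω c) c) {y y' : Fin M → Ω} {x x' : Fin M → ℂ}
    (hy : ∀ c b, Tr φ (y c / y b) (x c / x b)) (hy' : ∀ c b, Tr φ (y' c / y' b) (x' c / x' b))
    (h : ∃ b, y b ≠ 0) (h' : ∃ b, y' b ≠ 0) (d e : ℕ) : ∃ (μ : Ω) (l : ℂ), μ ≠ 0 ∧ l ≠ 0 ∧
      ∀ H, BiH H d e → Cf k H →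
        Tr φ (μ * aeval (Sum.elim y y') H) (l * eval (Sum.elim x x') H) := by
  obtain ⟨b, hb⟩ := h
  obtain ⟨b', hb'⟩ := h'
  refine ⟨(y b)⁻¹ ^ d * (y' b')⁻¹ ^ e, (x b)⁻¹ ^ d * (x' b')⁻¹ ^ e, by simp [hb, hb'],
    by simp [(hy b b).ne_iff.1 hb, (hy' b' b').ne_iff.1 hb'], fun H h1 h2 => ?_⟩
  have h3 : _ = _ * eval (Sum.elim x x') H := scale h1 (x b)⁻¹ (x' b')⁻¹ x x'
  rw [← scale h1, ← h3]
  refine tr_eval hk h2 fun i => ?_
  cases i with
  | inl c => simpa [div_eq_inv_mul] using hy c b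
  | inr c => simpa [div_eq_inv_mul] using hy' c b'

/-- Descent for two points and one derivation. -/
lemma down (h1 : SDown) {Q : Subfield ℂ → Prop} (g : Ev (GD w Θ PP)) (hQ : Ev Q)
    {y y' : Fin M → Ω} (hy : OnG w Θ y) (hy' : OnG w Θ y') (δ : Derivation ℂ Ω Ω) {T : Set Ω}
    (hT : T.Countable) : ∃ (k : Subfield ℂ) (K : Subfield Ω) (φ : K →+* ℂ) (D : Der) (p q : Pt t a),
      GD w Θ PP k ∧ Q k ∧ T ⊆ K ∧ (∀ c ∈ k, Tr φ (algebraMap ℂ Ω c) c) ∧ Kill k D ∧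
      (∀ u c, Tr φ u c → Tr φ (δ u) (D c)) ∧ (∀ c b, Tr φ (y c / y b) (Θ p c / Θ p b)) ∧
      ∀ c b, Tr φ (y' c / y' b) (Θ q c / Θ q b) := by
  obtain ⟨k, k1, k2, k3⟩ := (g.and hQ).exists
  obtain ⟨K, φ, D, p, -, a1, a2, a3, a4, a5⟩ := h1 t a M w Θ k Ω Unit Bool
    (fun _ => δ.restrictScalars ℤ) (fun j => cond j y y') T k1 k2.clh
    (fun _ c _ => δ.map_algebraMap c) (fun j => by cases j <;> assumption) hT
  refine ⟨k, K, φ, D (), p true, p false, k2, k3, a1, a2, a3 (), ?_, a5 true, a5 false⟩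
  rintro u _ ⟨h, rfl⟩
  obtain ⟨h', e⟩ := a4 () ⟨u, h⟩
  exact ⟨h', e.symm⟩

lemma nz {y : Fin M → Ω} (hy : OnG w Θ y) : ∃ b, y b ≠ 0 :=
  let ⟨b, _, h⟩ := hy.blk none; ⟨b, h⟩

/-- The difference of two points is carried to the difference. -/
lemma tr_sub (hk : ∀ c ∈ k, Tr φ (algebraMap ℂ Ω c) c) {y y' : Fin M → Ω} {p q : Pt t a}
    (hy : OnG w Θ y) (hy' : OnG w Θ y') (h : ∀ c b, Tr φ (y c / y b) (Θ p c / Θ p b))
    (h' : ∀ c b, Tr φ (y' c / y' b) (Θ q c / Θ q b)) {S : Fin M → MvPolynomial (Fin M ⊕ Fin M) ℂ}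
    {d e : ℕ} (hS : IsSub Θ S d e) (hc : ∀ c, Cf k (S c)) (h0 : sb S y y' ≠ 0) (c b : Fin M) :
    Tr φ (sb S y y' c / sb S y y' b) (Θ (p - q) c / Θ (p - q) b) := by
  obtain ⟨μ, l, m0, l0, h1⟩ := tr_sb hk h h' (nz hy) (nz hy') d e
  obtain ⟨l', h2⟩ := hS.2 p q
  have h3 : ∀ c, Tr φ (μ * sb S y y' c) (l * l' * Θ (p - q) c) := fun c => by
    rw [mul_assoc, ← h2]
    exact h1 _ (hS.1 c) (hc c)
  obtain ⟨c₀, h4⟩ := Function.ne_iff.1 h0
  have h5 : l * l' ≠ 0 := left_ne_zero_of_mul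
    (((h3 c₀).eq_iff tr_zero).not.1 (mul_ne_zero m0 h4))
  have h6 := (h3 c).div (h3 b)
  rwa [mul_div_mul_left _ _ m0, mul_div_mul_left _ _ h5] at h6

end Tr

end GKsubAux

open GKsubAux in
theorem sGKsub (h1 : SDown) : SGKsub := by
  intro t a M w Θ PP ga g
  refine ⟨fun H d e => bi, fun Ω _ _ y y' hy hy' => ?_, fun Ω _ _ y y' S d e hy hy' hS h0 => ?_⟩
  · obtain ⟨s, s1, s2⟩ := ga.sub
    obtain ⟨k, K, φ, D, p, q, -, k2, -, k3, -, -, k4, k5⟩ := down h1 g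
      (Ev.all fun x : s × Fin M => ev_cf (x.1.1 x.2)) hy hy' 0 Set.countable_empty
    obtain ⟨S, hS, c, hc⟩ := s2 p q
    obtain ⟨⟨d, e, b1⟩, b2⟩ := s1 S hS
    have b3 : ∀ c, BiH (S c) d e := fun c => bih (b1 c)
    obtain ⟨μ, l, -, l0, b4⟩ := tr_sb k3 k4 k5 (nz hy) (nz hy') d e
    refine ⟨S, d, e, ⟨b3, b2⟩, Function.ne_iff.2 ⟨c, right_ne_zero_of_mul (a := μ) ?_⟩⟩
    exact ((b4 _ (b3 c) (k2 (⟨S, hS⟩, c))).eq_iff tr_zero).not.2 (mul_ne_zero l0 hc)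
  · have hQ := Ev.all fun c => ev_cf (S c)
    refine ⟨⟨fun o => ?_, eqs_sb hS hy.eqs hy'.eqs⟩, fun δ γ γ' v v' => ?_⟩
    · obtain ⟨k, K, φ, D, p, q, k1, k2, -, k3, -, -, k4, k5⟩ :=
        down h1 g hQ hy hy' 0 Set.countable_empty
      obtain ⟨b, b1, b2⟩ := k1.blk (p - q) o
      exact ⟨b, b1, (tr_sub k3 hy hy' k4 k5 hS k2 h0 b b).ne_iff.2 b2⟩
    · obtain ⟨k, K, φ, D, p, q, k1, k2, hT, k3, k6, k7, k4, k5⟩ := down h1 g hQ hy hy' δ
        ((Set.countable_range γ).union (Set.countable_range γ'))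
      have t1 : ∀ i, Tr φ (γ i) (φ ⟨γ i, hT (Or.inl ⟨i, rfl⟩)⟩) := fun i => ⟨_, rfl⟩
      have t2 : ∀ i, Tr φ (γ' i) (φ ⟨γ' i, hT (Or.inr ⟨i, rfl⟩)⟩) := fun i => ⟨_, rfl⟩
      exact (vel_iff k1 k3 k7 (tr_sub k3 hy hy' k4 k5 hS k2 h0) fun i => (t1 i).sub (t2 i)).2
        (k1.sub.2.2 D p q _ _ k6 ((vel_iff k1 k3 k7 k4 t1).1 v) ((vel_iff k1 k3 k7 k5 t2).1 v'))

end Pool.Agent.MP_c69980_ag.H43
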