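import Pool.Agent.MP_c69980_ag.H43.Spec10

/-!
Infinitely many pointed morphisms from a curve.
-/

set_option autoImplicit false

namespace Pool.Agent.MP_c69980_ag.H43

open MvPolynomial H60 Finset Filter Topology Metric

namespace B3

section Val
variable {L : Type} [Field L] [Algebra ℂ L] (h : FFd L) (P : Pl L)
include h

lemma val_mul {x y : L} (hx : x ∈ P.V) (hy : y ∈ P.V) : P.val (x * y) = P.val x * P.val y := by
  obtain ⟨χ, h1, -⟩ := h.a.hom P
  rw [← h1 ⟨x, hx⟩, ← h1 ⟨y, hy⟩, ← map_mul, h1]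
  rfl

lemma val_add {x y : L} (hx : x ∈ P.V) (hy : y ∈ P.V) : P.val (x + y) = P.val x + P.val y := by
  obtain ⟨χ, h1, -⟩ := h.a.hom P
  rw [← h1 ⟨x, hx⟩, ← h1 ⟨y, hy⟩, ← map_add, h1]
  rfl

lemma val_const (c : ℂ) : P.val (algebraMap ℂ L c) = c := (h.a.hom P).choose_spec.2 c

lemma val_zero : P.val 0 = 0 := by simpa using val_const h P 0

lemma val_one : P.val 1 = 1 := by simpa using val_const h P 1

lemma val_aeval {ι : Type} {T : ι → L} (hT : ∀ i, T i ∈ P.V) (A : MvPolynomial ι ℂ) :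
    aeval T A ∈ P.V ∧ P.val (aeval T A) = eval (fun i => P.val (T i)) A := by
  induction A using MvPolynomial.induction_on with
  | C c => simpa using ⟨P.const c, val_const h P c⟩
  | add p q hp hq =>
    rw [map_add, map_add, val_add h P hp.1 hq.1, hp.2, hq.2]
    exact ⟨add_mem hp.1 hq.1, rfl⟩
  | mul_X p i hp =>
    rw [map_mul, map_mul, aeval_X, eval_X, val_mul h P hp.1 (hT i), hp.2]
    exact ⟨mul_mem hp.1 (hT i), rfl⟩

lemma red_ratio {M : ℕ} {y : Fin M → L} (hy : ∀ c b, y c / y b ∈ P.V) {Y : Fin M → ℂ} {hY : Y ≠ 0}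
    (hr : Red P y (Projectivization.mk ℂ Y hY)) (c b : Fin M) : Y c / Y b = P.val (y c / y b) := by
  obtain ⟨e, h1, h2, h3⟩ := hr
  obtain ⟨μ, rfl⟩ := (Projectivization.mk_eq_mk_iff ℂ _ _ _ _).1 h3
  obtain ⟨j, hj⟩ := Function.ne_iff.1 h2
  have hj' : P.val (e * y j) ≠ 0 := hj
  have j0 : y j ≠ 0 := fun k => hj' (by rw [k, mul_zero, val_zero h])
  have e1 : ∀ i, P.val (e * y i) = P.val (e * y j) * P.val (y i / y j) := fun i => by
    rw [← val_mul h P (h1 j) (hy i j), mul_assoc, mul_div_cancel₀ _ j0]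
  simp only [Pi.smul_apply, Units.smul_def, smul_eq_mul]
  by_cases b0 : y b = 0
  · simp [b0, val_zero h]
  have e2 : P.val (y b / y j) ≠ 0 := fun k => by
    have := val_mul h P (hy b j) (hy j b)
    rw [k, zero_mul, div_mul_div_cancel₀ j0, div_self b0, val_one h] at this
    exact one_ne_zero this
  rw [mul_div_mul_left _ _ μ.ne_zero, e1 c, e1 b, mul_div_mul_left _ _ hj', div_eq_iff e2,
    ← val_mul h P (hy c b) (hy b j), div_mul_div_cancel₀ b0]

omit P in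
lemma val_surj {T : L} (hT : Transcendental ℂ T) (a : ℂ) : ∃ P : Pl L, P.val T = a := by
  have t1 : Transcendental ℂ (T - algebraMap ℂ L a) := fun k => hT (by
    simpa using k.add (isAlgebraic_algebraMap a))
  have fd := h.b.fd _ t1
  have d := h.b.deg _ t1
  have pos : 0 < Module.finrank (IntermediateField.adjoin ℂ {T - algebraMap ℂ L a}) L := Module.finrank_pos
  obtain ⟨P, hP⟩ : ∃ P : Pl L, 0 < P.ord (T - algebraMap ℂ L a) := by
    by_contra k
    push Not at k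
    rw [finsum_congr fun P => max_eq_right (k P), finsum_zero] at d
    omega
  have m : T - algebraMap ℂ L a ∈ P.V :=
    (h.a.mem P _ (Pool.Agent.MP_f3836a_nt.PK.PlB.tr_ne t1)).2 hP.le
  exact ⟨P, (h.a.val P T (by simpa using add_mem m (P.const a)) a).1 (Or.inr hP)⟩

omit P in
lemma exists_S {M : ℕ} (y : Fin M → L) : ∃ S : Finset (Pl L), ∀ P ∉ S, ∀ c b, y c / y b ∈ P.V := by
  have : (⋃ i : Fin M × Fin M, {P : Pl L | P.ord (y i.1 / y i.2) ≠ 0}).Finite :=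
    Set.finite_iUnion fun i => h.b.fin _
  refine ⟨this.toFinset, fun P hP c b => ?_⟩
  by_cases e : y c / y b = 0
  · rw [e]
    exact zero_mem _
  · refine (h.a.mem P _ e).2 (le_of_eq (by_contra fun k => hP ?_))
    exact this.mem_toFinset.2 (Set.mem_iUnion.2 ⟨(c, b), fun k' => k k'.symm⟩)

end Val

lemma alg_mono {E E' : Subfield ℂ} (h : E ≤ E') {x : ℂ} (hx : IsAlgebraic E x) : IsAlgebraic E' x := by
  let := (Subfield.inclusion h).toAlgebra
  have : IsScalarTower E E' ℂ := IsScalarTower.of_algebraMap_eq fun _ => rfl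
  exact hx.tower_top E'

lemma rat_smul {M : ℕ} {l : ℂ} (hl : l ≠ 0) (y : Fin M → ℂ) : rat (l • y) = rat y := by
  simp only [rat, Pi.smul_apply, smul_eq_mul, mul_div_mul_left _ _ hl]

lemma analytic_of {n : ℕ} {g : ℂ → Fin n → ℂ} (h : ContDiffAt ℂ 1 g 0) : AnalyticAt ℂ g 0 :=
  Complex.analyticAt_iff_eventually_differentiableAt.2
    ((h.eventually (by simp)).mono fun _ a => a.differentiableAt one_ne_zero)

variable {t a M n : ℕ} {w : Fin M → Option (Fin t)} {Θ : Pt t a → Fin M → ℂ}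

lemma th_ne (h : GA w Θ) (p : Pt t a) : Θ p ≠ 0 := fun k => by
  obtain ⟨b, -, hb⟩ := h.blk p none
  exact hb (congrFun k b)

lemma lam_nsmul (h : GA w Θ) {x : Pt t a} (hx : x ∈ Lam Θ) (k : ℕ) : k • x ∈ Lam Θ := by
  have z : (0 : Pt t a) ∈ Lam Θ := by simpa using h.lsub x hx x hx
  induction k with
  | zero => simpa using z
  | succ k ih =>
    rw [succ_nsmul, ← sub_neg_eq_add, ← zero_sub]
    exact h.lsub _ ih _ (h.lsub _ z _ hx)

lemma rat_per (h : GA w Θ) {p q : Pt t a} (e : p - q ∈ Lam Θ) : rat (Θ p) = rat (Θ q) := by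
  obtain ⟨l, hl⟩ := (h.par p q).2 e
  rw [hl, rat_smul]
  rintro rfl
  exact th_ne h p (by rw [hl, zero_smul])

lemma qq_add (p : Pt t a) {m : ℕ} (lam : Fin m → Pt t a) (s x : Fin m → ℂ) (k : ℕ) :
    qq p lam (s + k • x) = qq p lam s + k • ∑ l, x l • lam l := by
  simp only [qq, Pi.add_apply, Pi.smul_apply, add_smul, sum_add_distrib, smul_sum, smul_assoc, add_assoc]

lemma per_mul {m N : ℕ} {lam : Fin m → Pt t a} {f : (Fin m → ℂ) → PS n}
    (h : ∀ s x, ∑ l, x l • lam l ∈ Lam Θ → f (s + N • x) = f s) (k : ℕ) (s x : Fin m → ℂ)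
    (hx : ∑ l, x l • lam l ∈ Lam Θ) : f (s + (k * N) • x) = f s := by
  induction k with
  | zero => simp
  | succ k ih => rw [Nat.succ_mul, add_nsmul, ← add_assoc, h _ _ hx, ih]

lemma not_ind {L : Type} [Field L] [Algebra ℂ L] (h : FFd L) (P : Pl L) {y : Fin M → L}
    (hy : ∀ c b, y c / y b ∈ P.V) {Y : Fin M → ℂ} (hY : ∀ c b, Y c / Y b = P.val (y c / y b))
    {F : Subfield ℂ} (A : (Fin 2 → Fin M × Fin M) → MvPolynomial (Fin 2) ℂ)
    (hA : ∀ τ, A τ ≠ 0 ∧ aeval (fun l => y (τ l).1 / y (τ l).2) (A τ) = 0) (hF : ∀ τ, Cf F (A τ)) :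
    ¬ Ind F 2 (rat Y) := by
  rintro ⟨Z, h1, h2⟩
  choose c b e using h1
  obtain ⟨A', hA'⟩ := cf_iff.1 (hF fun l => (c l, b l))
  have k := (val_aeval h P (T := fun l => y (c l) / y (b l)) (fun l => hy _ _) (A fun l => (c l, b l))).2
  rw [(hA fun l => (c l, b l)).2, val_zero h, ← hA', eval_map_sub] at k
  have z : Z = fun l => P.val (y (c l) / y (b l)) := funext fun l => (e l).trans (hY _ _)
  rw [← z] at k
  refine (hA fun l => (c l, b l)).1 ?_
  rw [← hA', algebraicIndependent_iff.1 h2 A' k.symm, map_zero]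

end B3

open B3 in
theorem sB3 (h1 : SCurve) (h2 : SLift) (h3 : SRatP) (h4 : SAvoid) (h5 : SIndN) (h6 : SCv1)
    (h7 : SCv2) (h8 : SRelK) (h9 : SDisc) : SB3 := by
  intro t a M n w Θ PP K _ _ U z u R k F p₀ m lam δ f N hG hL hM hF
  obtain ⟨L, _, _, y, ff, on, ⟨c₁, b₁, hT⟩, hv⟩ := h1 t a M w Θ PP k F p₀ m lam δ hF.gd hF.gk hF.le hF.axo
  obtain ⟨S, hS⟩ := exists_S ff y
  obtain ⟨β, hβ⟩ := exists_ch on.blk
  have : Infinite (Pl L) := Infinite.of_surjective _ (val_surj ff hT)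
  obtain ⟨P₀, hP₀⟩ := Infinite.exists_notMem_finset S
  obtain ⟨r, C, v, sm, ⟨c₀, c0, c1⟩, c2⟩ := h7 L ff S P₀ hP₀
  obtain ⟨pl, cv⟩ := h6 r C L v sm
  have plS : ∀ c, pl c ∉ S := fun c e => c2 _ e c c.2 (cv.loc c)
  have pl0 : pl ⟨c₀, c0⟩ = P₀ := Pool.Agent.MP_f3836a_nt.PK.Place.ext
    (SetLike.ext fun x => (cv.loc _ x).trans (c1 x).symm)
  obtain ⟨p₁, g, g0, g1, g2⟩ := h2 t a M w Θ PP k (m + 1) lam L y S P₀ hG hL hF.gd hF.axo.ind ff on hv
    (fun P hP => ⟨β, hβ, fun x => hS P hP _ _⟩) hP₀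
  have rt : ∀ P ∉ S, ∀ c b, Θ (qq p₁ lam (g P)) c / Θ (qq p₁ lam (g P)) b = P.val (y c / y b) :=
    fun P hP => red_ratio ff P (hS P hP) (g1 P hP).2
  have rel : ∀ τ : Fin 2 → Fin M × Fin M, ∃ A : MvPolynomial (Fin 2) ℂ, A ≠ 0 ∧
      aeval (fun l => y (τ l).1 / y (τ l).2) A = 0 := fun τ => by
    by_contra e
    push Not at e
    have := (algebraicIndependent_iff.2 fun A hA => by_contra fun b => e A b hA).cardinalMk_le_trdeg
    rw [sm.deg] at this
    simp at this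
  choose A hA using rel
  obtain ⟨F₂, cF, ⟨l1, l2⟩, l3⟩ := (((ev_le hF.cnt).and (Q := fun k' => rat (Θ p₁) ⊆ k')
    ⟨_, (rat_fin _).countable, fun _ e => e⟩).and (Ev.all fun τ => ev_cf (A τ))).exists
  obtain ⟨s₀, hs, -⟩ := h4 t a M w Θ F₂ p₀ m lam 0 hG.toGA1 cF hF.axo.ind
  have key : ∀ (j : ℕ), ∀ P ∉ S, Ind F m (rat (Θ (qq p₀ lam (s₀ + j • g P)))) ∧
      rat (Θ (qq p₀ lam (s₀ + j • g P))) ⊆ Subfield.closure
        (F₂ ∪ rat (Θ (qq p₀ lam s₀)) ∪ rat (Θ (qq p₁ lam (g P))) : Set ℂ) := fun j P hP => by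
    rw [qq_add]
    exact (h5 t a M Θ k F₂ _ p₁ _ m j hF.gd.sub (hF.le.trans l1) l2
      (not_ind ff P (hS P hP) (rt P hP) A hA l3) hs).imp_left fun b => b.mono l1 le_rfl subset_rfl
  have mor : ∀ j : ℕ, H4.IsMor fun c : C => f (s₀ + (j * N) • g (pl c)) := fun j => by
    refine (h3 L ff S n (fun P => f (s₀ + (j * N) • g P)) (FL F₂ (Θ (qq p₀ lam s₀)))
      (Fin M × Fin M) (fun i => y i.1 / y i.2) (FL_countable cF _) (fun α ε e0 e1 e2 => ?_)
      (fun P hP x hx => ?_)).elim fun Y hY => (cv.mor n _).2 ⟨Y, fun c => hY _ (plS c)⟩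
    · obtain ⟨γ, γ1, γ2⟩ := g2 α ε e0 e1 e2
      have e3 : ∀ s, s₀ + (j * N) • g (α s) = s₀ + (j * N) • γ s + (j * N) • (g (α s) - γ s) :=
        fun s => by rw [smul_sub]; abel
      have i0 : Ind F m (rat (Θ (qq p₀ lam (s₀ + (j * N) • γ 0)))) := by
        rw [← rat_per hG (p := qq p₀ lam (s₀ + (j * N) • g (α 0))) (by
          rw [e3, qq_add, add_sub_cancel_left]
          exact lam_nsmul hG γ2.self_of_nhds _)]
        exact (key _ _ e2).1
      obtain ⟨-, -, -, G, G1, G2⟩ := hF.good _ i0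
      have c3 : ContDiffAt ℂ 1 (fun s => s₀ + (j * N) • γ s) 0 :=
        contDiffAt_const.add (γ1.contDiffAt.const_smul (j * N))
      refine ⟨fun s => G (s₀ + (j * N) • γ s), analytic_of (G1.comp 0 c3), ?_⟩
      filter_upwards [γ2, c3.continuousAt.eventually G2] with s b1 b2
      rw [e3, per_mul hF.per j _ _ b1]
      exact b2
    · refine alg_mono (FL_le (fun c hc => Subfield.subset_closure (Or.inl (le_FL _ _ (l1 hc))))
        ((key _ P hP).2.trans (Subfield.closure_le.2 ?_))) ((hF.good _ (key _ P hP).1).2.2.1 x hx)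
      rintro c ((hc | hc) | ⟨c', b, rfl⟩)
      · exact Subfield.subset_closure (Or.inl (le_FL _ _ hc))
      · exact Subfield.subset_closure (Or.inl (rat_FL _ _ hc))
      · exact Subfield.subset_closure (Or.inr ⟨(c', b), (rt P hP c' b).symm⟩)
  have i1 : Ind F (m + 1) (rat (Θ (qq p₀ lam s₀))) := hs.mono l1 le_rfl subset_rfl
  refine ⟨r, C, ⟨c₀, c0⟩, f s₀, sm.var, (hF.good _ (i1.mono le_rfl (Nat.le_succ m) subset_rfl)).1,
    hF.gen _ i1, Set.infinite_of_injective_forall_mem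
      (f := fun (j : ℕ) (c : C) => f (s₀ + (j * N) • g (pl c))) (fun j j' e => by_contra fun ne => ?_)
      fun j => ⟨mor j, ?_, ?_⟩⟩
  · have κ0 : ((j * N : ℕ) : ℂ) - (j' * N : ℕ) ≠ 0 := fun b =>
      ne (Nat.eq_of_mul_eq_mul_right hF.pos (Nat.cast_injective (sub_eq_zero.1 b)))
    have : Uncountable ℂ := Complex.ofReal_injective.uncountable
    refine Set.not_countable_univ (α := ℂ) (((cv.cof.image fun P => P.val (y c₁ / y b₁)).countable.union
      ((h9 t a M w Θ hG).2.image fun x => Θ (p₁ + (((j * N : ℕ) : ℂ) - (j' * N : ℕ))⁻¹ • x) c₁ /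
        Θ (p₁ + (((j * N : ℕ) : ℂ) - (j' * N : ℕ))⁻¹ • x) b₁)).mono fun x _ => ?_)
    obtain ⟨P, rfl⟩ := val_surj ff hT x
    by_cases b : P ∈ Set.range pl
    swap
    · exact Or.inl ⟨P, b, rfl⟩
    obtain ⟨c, rfl⟩ := b
    have a1 := hF.good _ (key (j * N) _ (plS c)).1
    have a2 := (hF.good _ (key (j' * N) _ (plS c)).1).2.1
    rw [← show f (s₀ + (j * N) • g (pl c)) = f (s₀ + (j' * N) • g (pl c)) from congrFun e c] at a2
    have a3 := (hG.par _ _).1 ((h8 t a M n w Θ K U z u hM).uni _ a1.1 _ _ a1.2.1 a2 (th_ne hG _))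
    rw [qq_add, qq_add, add_sub_add_left_eq_sub, ← Nat.cast_smul_eq_nsmul ℂ,
      ← Nat.cast_smul_eq_nsmul ℂ (j' * N), ← sub_smul] at a3
    refine Or.inr ⟨_, a3, ?_⟩
    simp only [inv_smul_smul₀ κ0]
    exact rt _ (plS c) c₁ b₁
  · rintro _ ⟨c, rfl⟩
    exact (hF.good _ (key _ _ (plS c)).1).1
  · simp only [pl0, g0, smul_zero, add_zero]

end Pool.Agent.MP_c69980_ag.H43
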