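import Pool.Agent.MP_c69980_ag.H43.Spec9

/-!
Counting coefficients.
-/

set_option autoImplicit false

namespace Pool.Agent.MP_c69980_ag.H43

open Finset

theorem sCnt2 : SCnt2 := by
  intro F K _ _ _ ι κ _ _ W x D hW hx h1 h2
  classical
  let e : (ι → Fin (D + 1)) → ι →₀ ℕ := fun n => Finsupp.equivFunOnFinite.symm fun i => n i
  let v : κ → (ι → Fin (D + 1)) → W := fun k n =>
    if h : (e n).degree ≤ D then ⟨_, h1 k _ h⟩ else 0
  have hv : LinearIndependent F v := by
    rw [Fintype.linearIndependent_iff] at hx ⊢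
    intro c hc
    refine hx c (by_contra fun h0 => ?_)
    have h3 := h2 _ (Submodule.sum_mem _ fun k _ =>
      Submodule.smul_mem _ (c k) (Submodule.subset_span ⟨k, rfl⟩)) h0
    have h4 : ((D + 1 : ℕ) : ℕ∞) ≤ MvPowerSeries.order (∑ k, c k • x k) := by
      refine MvPowerSeries.nat_le_order fun m hm => ?_
      have h5 : m.degree ≤ D := Nat.lt_succ_iff.1 hm
      let n : ι → Fin (D + 1) := fun i => ⟨m i, (Finsupp.le_degree i m).trans_lt hm⟩
      have h6 : e n = m := Finsupp.ext fun _ => rfl
      have h7 := congrArg Subtype.val (congrFun hc n)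
      simp only [Finset.sum_apply, Pi.smul_apply, v, h6, dif_pos h5, Submodule.coe_sum,
        Submodule.coe_smul, Pi.zero_apply, Submodule.coe_zero] at h7
      rw [map_sum, ← h7]
      exact sum_congr rfl fun k _ => rfl
    have h8 : D + 1 ≤ D := by exact_mod_cast h4.trans h3
    omega
  have := hv.fintype_card_le_finrank
  rwa [Module.finrank_pi_fintype, sum_const, card_univ, Fintype.card_fun, Fintype.card_fin,
    smul_eq_mul] at this

end Pool.Agent.MP_c69980_ag.H43
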